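import Mathlib

/-!
# The saturation number of joined disjoint hypergraph cliques

Let `r ≥ 3` and `k ≥ r`. The hypergraph `H` consists of `r` vertex-disjoint copies of the complete
`r`-graph on `k` vertices and one further edge meeting all of them. We show
`Sat(H,n) ≤ r C(k-1,2) C(n,r-2)` for large `n`, so that `Sat(H,n) / n^(r-1)` tends to `0`.

Take disjoint sets `W_i` (`i < r`) of `k - 1` vertices and all `r`-subsets of the sets `W_i ∪ {u}`,
where `u` is outside all the `W_j`. The only complete `r`-graphs on `k` vertices are the sets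
`W_i ∪ {u}`, and no edge meets all `W_i` in at most one vertex, so that this is `H`-free. A new edge
with at most one vertex in every `W_i` creates a copy of `H`. Hence in any `H`-saturated extension all
edges meet some `W_i` in at least two vertices.
-/

set_option autoImplicit false

open Finset

namespace Pool.Agent.Results.MP_578b47_co.JoinedCliques

/-- The `r`-graph `G` contains a copy of `H_{r,k}`: there are `r` pairwise disjoint sets of `k`
vertices all of whose `r`-subsets are edges, and an edge that has exactly one vertex in each of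
these sets. -/
def ContainsH {n : ℕ} (r k : ℕ) (G : Finset (Finset (Fin n))) : Prop :=
  ∃ (X : Fin r → Finset (Fin n)) (e : Finset (Fin n)),
    (∀ i, (X i).card = k ∧ ∀ f, f ⊆ X i → f.card = r → f ∈ G) ∧
    (∀ i j, i ≠ j → Disjoint (X i) (X j)) ∧ e ∈ G ∧ ∀ i, (e ∩ X i).card = 1

/-- `G` is an `H_{r,k}`-saturated `r`-graph. -/
def IsSaturated {n : ℕ} (r k : ℕ) (G : Finset (Finset (Fin n))) : Prop :=
  (∀ e ∈ G, e.card = r) ∧ ¬ ContainsH r k G ∧
    ∀ e : Finset (Fin n), e.card = r → e ∉ G → ContainsH r k (insert e G)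

/-- The saturation number `Sat(H_{r,k}, n)`. -/
noncomputable def Sat (r k n : ℕ) : ℕ :=
  sInf {m | ∃ G : Finset (Finset (Fin n)), IsSaturated r k G ∧ G.card = m}

/-- the sets `W_i` -/
def W (n k i : ℕ) : Finset (Fin n) := univ.filter fun x => x.val / (k - 1) = i

theorem mem_W {n k i : ℕ} {x : Fin n} : x ∈ W n k i ↔ x.val / (k - 1) = i := by
  simp [W]

theorem card_W {n k i r : ℕ} (hk : 2 ≤ k) (hi : i < r) (hn : r * (k - 1) ≤ n) :
    (W n k i).card = k - 1 := by
  have h0 : 0 < k - 1 := by omega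
  have h1 : (i + 1) * (k - 1) ≤ n := le_trans (Nat.mul_le_mul_right _ hi) hn
  have h2 : (W n k i).image (fun x : Fin n => x.val) =
      Finset.Ico (i * (k - 1)) ((i + 1) * (k - 1)) := by
    ext a
    simp only [Finset.mem_image, Finset.mem_Ico, mem_W]
    constructor
    · rintro ⟨x, hx, rfl⟩
      rw [Nat.div_eq_iff h0] at hx
      rw [Nat.add_mul, one_mul]
      omega
    · rintro ⟨ha, hb⟩
      refine ⟨⟨a, by omega⟩, ?_, rfl⟩
      exact Nat.div_eq_of_lt_le ha hb
  have h3 : ((W n k i).image (fun x : Fin n => x.val)).card = (W n k i).card :=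
    Finset.card_image_of_injective _ Fin.val_injective
  rw [← h3, h2, Nat.card_Ico, Nat.add_mul, one_mul]
  omega

/-- the set of vertices outside all `W_i` -/
def O (n r k : ℕ) : Finset (Fin n) := univ.filter fun x => r ≤ x.val / (k - 1)

theorem mem_O {n r k : ℕ} {x : Fin n} : x ∈ O n r k ↔ r ≤ x.val / (k - 1) := by
  simp [O]

theorem card_O {n r k : ℕ} (hk : 2 ≤ k) (hn : r * (k + 1) ≤ n) : 2 * r ≤ (O n r k).card := by
  have h0 : 0 < k - 1 := by omega
  have h2 : Finset.Ico (r * (k - 1)) n ⊆ (O n r k).image (fun x : Fin n => x.val) := by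
    intro a ha
    rw [Finset.mem_Ico] at ha
    rw [Finset.mem_image]
    exact ⟨⟨a, ha.2⟩, mem_O.2 ((Nat.le_div_iff_mul_le h0).2 ha.1), rfl⟩
  have h3 := Finset.card_le_card h2
  rw [Finset.card_image_of_injective _ Fin.val_injective, Nat.card_Ico] at h3
  have h4 : r * (k + 1) = r * (k - 1) + 2 * r := by
    have : k + 1 = (k - 1) + 2 := by omega
    rw [this]
    ring
  omega

/-- the base hypergraph -/
def G₀ (n r k : ℕ) : Finset (Finset (Fin n)) :=
  univ.filter fun e => e.card = r ∧ ∃ i : Fin r, ∃ u ∈ O n r k, e ⊆ insert u (W n k i)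

theorem mem_G₀ {n r k : ℕ} {e : Finset (Fin n)} :
    e ∈ G₀ n r k ↔ e.card = r ∧ ∃ i : Fin r, ∃ u ∈ O n r k, e ⊆ insert u (W n k i) := by
  simp [G₀]

/-- complete `r`-graphs on `k` vertices contain some `W_j` -/
theorem exists_W_subset {n r k : ℕ} (hr : 3 ≤ r) (hk : r ≤ k) (hn : r * (k - 1) ≤ n)
    {X : Finset (Fin n)} (hX : X.card = k) (hf : ∀ f, f ⊆ X → f.card = r → f ∈ G₀ n r k) :
    ∃ j : Fin r, W n k j ⊆ X := by
  -- two vertices of `X`
  have hpair : ∀ x ∈ X, ∀ y ∈ X, x ≠ y → ∃ i : Fin r, ∃ u ∈ O n r k,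
      x ∈ insert u (W n k i) ∧ y ∈ insert u (W n k i) := by
    intro x hx y hy hxy
    obtain ⟨f, hf1, hf2, hf3⟩ := Finset.exists_subsuperset_card_eq (s := {x, y}) (t := X) (n := r)
      (by
        intro z hz
        rw [Finset.mem_insert, Finset.mem_singleton] at hz
        rcases hz with rfl | rfl <;> assumption)
      (by rw [Finset.card_pair hxy]; omega) (by omega)
    obtain ⟨i, u, hu, hsub⟩ := (mem_G₀.1 (hf f hf2 hf3)).2
    exact ⟨i, u, hu, hsub (hf1 (by simp)), hsub (hf1 (by simp))⟩
  -- at most one vertex outside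
  have hout : ∀ x ∈ X, ∀ y ∈ X, x ∈ O n r k → y ∈ O n r k → x = y := by
    intro x hx y hy hxO hyO
    by_contra hxy
    obtain ⟨i, u, hu, h1, h2⟩ := hpair x hx y hy hxy
    rw [Finset.mem_insert, mem_W] at h1 h2
    rw [mem_O] at hxO hyO
    have := i.isLt
    rcases h1 with h1 | h1
    · rcases h2 with h2 | h2
      · exact hxy (h1.trans h2.symm)
      · omega
    · omega
  have hin : ∀ x ∈ X, ∀ y ∈ X, x ∉ O n r k → y ∉ O n r k →
      x.val / (k - 1) = y.val / (k - 1) := by
    intro x hx y hy hxO hyO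
    by_cases hxy : x = y
    · rw [hxy]
    · obtain ⟨i, u, hu, h1, h2⟩ := hpair x hx y hy hxy
      rw [Finset.mem_insert, mem_W] at h1 h2
      rcases h1 with h1 | h1
      · exact absurd (h1 ▸ hu) hxO
      · rcases h2 with h2 | h2
        · exact absurd (h2 ▸ hu) hyO
        · rw [h1, h2]
  have h1 : 1 < X.card := by omega
  obtain ⟨a, ha, b, hb, hab⟩ := Finset.one_lt_card.1 h1
  obtain ⟨x, hx, hxO⟩ : ∃ x ∈ X, x ∉ O n r k := by
    by_contra hcon
    push Not at hcon
    exact hab (hout a ha b hb (hcon a ha) (hcon b hb))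
  have hxr : x.val / (k - 1) < r := by
    rw [mem_O] at hxO
    omega
  refine ⟨⟨x.val / (k - 1), hxr⟩, ?_⟩
  -- `X \ O ⊆ W_j`
  have hsub : X \ O n r k ⊆ W n k (x.val / (k - 1)) := by
    intro y hy
    rw [Finset.mem_sdiff] at hy
    rw [mem_W]
    exact hin y hy.1 x hx hy.2 hxO
  have hcO : (X ∩ O n r k).card ≤ 1 := by
    rw [Finset.card_le_one]
    intro y hy z hz
    rw [Finset.mem_inter] at hy hz
    exact hout y hy.1 z hz.1 hy.2 hz.2
  have hcs := Finset.card_sdiff_add_card_inter X (O n r k)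
  have hcW := card_W (n := n) (k := k) (by omega) hxr hn
  have heq : X \ O n r k = W n k (x.val / (k - 1)) :=
    Finset.eq_of_subset_of_card_le hsub (by omega)
  show W n k (x.val / (k - 1)) ⊆ X
  rw [← heq]
  exact Finset.sdiff_subset

theorem G₀_free {n r k : ℕ} (hr : 3 ≤ r) (hk : r ≤ k) (hn : r * (k - 1) ≤ n) :
    ¬ ContainsH r k (G₀ n r k) := by
  rintro ⟨X, e, hX, hd, he, h1⟩
  have hj : ∀ i, ∃ j : Fin r, W n k j ⊆ X i := fun i =>
    exists_W_subset hr hk hn (hX i).1 (hX i).2
  choose j hj using hj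
  have hjinj : Function.Injective j := by
    intro a b hab
    by_contra hne
    have hc := card_W (n := n) (k := k) (r := r) (i := j a) (by omega) (j a).isLt hn
    obtain ⟨y, hy⟩ := Finset.card_pos.1 (by omega : 0 < (W n k (j a)).card)
    exact Finset.disjoint_left.1 (hd a b hne) (hj a hy) (hj b (hab ▸ hy))
  have hjsurj : Function.Surjective j := Finite.surjective_of_injective hjinj
  obtain ⟨her, i, u, hu, hsub⟩ := mem_G₀.1 he
  obtain ⟨a, ha⟩ := hjsurj i
  have h2 : e.erase u ⊆ e ∩ X a := by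
    intro y hy
    rw [Finset.mem_erase] at hy
    rw [Finset.mem_inter]
    refine ⟨hy.2, hj a ?_⟩
    rw [ha]
    exact (Finset.mem_insert.1 (hsub hy.2)).resolve_left hy.1
  have h3 := Finset.card_le_card h2
  have h4 := Finset.pred_card_le_card_erase (s := e) (a := u)
  rw [h1 a] at h3
  omega

/-- a new edge with at most one vertex in every `W_i` creates a copy of `H` -/
theorem creates {n r k : ℕ} (hr : 3 ≤ r) (hk : r ≤ k) (hn : r * (k + 1) ≤ n)
    {e : Finset (Fin n)} (he : e.card = r) (h : ∀ i : Fin r, (e ∩ W n k i).card ≤ 1)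
    {G : Finset (Finset (Fin n))} (hG : G₀ n r k ⊆ G) (heG : e ∈ G) :
    ContainsH r k G := by
  have hn' : r * (k - 1) ≤ n := le_trans (Nat.mul_le_mul_left _ (by omega)) hn
  -- the indices met by `e`
  set I : Finset (Fin r) := univ.filter fun i => (e ∩ W n k i).Nonempty with hI
  have hmI : ∀ i, i ∈ I ↔ (e ∩ W n k i).Nonempty := by simp [hI]
  have hsum : (e \ O n r k).card = I.card := by
    have hx : ∀ x ∈ e \ O n r k, x.val / (k - 1) < r := by
      intro x hx
      rw [Finset.mem_sdiff, mem_O] at hx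
      omega
    have : (e \ O n r k).card = (I.image (fun i => i.val)).card := by
      rw [← Finset.card_image_of_injOn (f := fun x : Fin n => x.val / (k - 1)) (s := e \ O n r k)]
      · congr 1
        ext a
        simp only [Finset.mem_image, hmI]
        constructor
        · rintro ⟨x, hx', rfl⟩
          exact ⟨⟨_, hx x hx'⟩, ⟨x, Finset.mem_inter.2 ⟨(Finset.mem_sdiff.1 hx').1, mem_W.2 rfl⟩⟩, rfl⟩
        · rintro ⟨i, ⟨x, hxi⟩, rfl⟩
          rw [Finset.mem_inter, mem_W] at hxi
          refine ⟨x, Finset.mem_sdiff.2 ⟨hxi.1, ?_⟩, hxi.2⟩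
          rw [mem_O, hxi.2]
          have := i.isLt
          omega
      · intro x hx' y hy' hxy
        simp only at hxy
        have h1 := h ⟨_, hx x hx'⟩
        rw [Finset.card_le_one] at h1
        refine h1 x (Finset.mem_inter.2 ⟨(Finset.mem_sdiff.1 hx').1, mem_W.2 rfl⟩) y
          (Finset.mem_inter.2 ⟨(Finset.mem_sdiff.1 hy').1, mem_W.2 ?_⟩)
        exact hxy.symm
    rw [this, Finset.card_image_of_injective _ Fin.val_injective]
  have hIr : I.card ≤ r := by
    have := Finset.card_le_univ I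
    rwa [Fintype.card_fin] at this
  have hcomp : Iᶜ.card = (e ∩ O n r k).card := by
    have h1 := Finset.card_sdiff_add_card_inter e (O n r k)
    rw [Finset.card_compl, Fintype.card_fin]
    omega
  -- vertices outside `e`
  have hO := card_O (n := n) (r := r) (k := k) (by omega) hn
  have hOe : I.card ≤ (O n r k \ e).card := by
    have h1 := Finset.card_sdiff_add_card_inter (O n r k) e
    have h2 : (O n r k ∩ e).card ≤ r := by
      rw [← he]
      exact Finset.card_le_card Finset.inter_subset_right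
    omega
  obtain ⟨T, hT, hTc⟩ := Finset.exists_subset_card_eq hOe
  let φ : {x // x ∈ Iᶜ} ≃ {x // x ∈ e ∩ O n r k} := Finset.equivOfCardEq hcomp
  let ψ : {x // x ∈ I} ≃ {x // x ∈ T} := Finset.equivOfCardEq hTc.symm
  let u : Fin r → Fin n := fun i =>
    if hi : i ∈ I then (ψ ⟨i, hi⟩).1 else (φ ⟨i, by rwa [Finset.mem_compl]⟩).1
  have hu1 : ∀ i, i ∈ I → u i ∈ O n r k ∧ u i ∉ e := by
    intro i hi
    have : u i = (ψ ⟨i, hi⟩).1 := by simp only [u, hi, dif_pos]
    rw [this]
    exact Finset.mem_sdiff.1 (hT (ψ ⟨i, hi⟩).2)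
  have hu2 : ∀ i, i ∉ I → u i ∈ e ∧ u i ∈ O n r k := by
    intro i hi
    have : u i = (φ ⟨i, by rwa [Finset.mem_compl]⟩).1 := by simp only [u, hi, dif_neg, not_false_iff]
    rw [this]
    exact Finset.mem_inter.1 (φ ⟨i, by rwa [Finset.mem_compl]⟩).2
  have huO : ∀ i, u i ∈ O n r k := fun i => by
    by_cases hi : i ∈ I
    · exact (hu1 i hi).1
    · exact (hu2 i hi).2
  have huinj : Function.Injective u := by
    intro a b hab
    by_cases ha : a ∈ I
    · by_cases hb : b ∈ I
      · have h1 : u a = (ψ ⟨a, ha⟩).1 := by simp only [u, ha, dif_pos]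
        have h2 : u b = (ψ ⟨b, hb⟩).1 := by simp only [u, hb, dif_pos]
        rw [h1, h2] at hab
        have h3 := ψ.injective (Subtype.ext hab)
        exact congrArg Subtype.val h3
      · exact absurd (hab ▸ (hu2 b hb).1) (hu1 a ha).2
    · by_cases hb : b ∈ I
      · exact absurd (hab ▸ (hu2 a ha).1) (hu1 b hb).2
      · have h1 : u a = (φ ⟨a, by rwa [Finset.mem_compl]⟩).1 := by
          simp only [u, ha, dif_neg, not_false_iff]
        have h2 : u b = (φ ⟨b, by rwa [Finset.mem_compl]⟩).1 := by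
          simp only [u, hb, dif_neg, not_false_iff]
        rw [h1, h2] at hab
        have h3 := φ.injective (Subtype.ext hab)
        exact congrArg Subtype.val h3
  have huW : ∀ i j : Fin r, u i ∉ W n k j := by
    intro i j hm
    have h1 := mem_O.1 (huO i)
    rw [mem_W] at hm
    have := j.isLt
    omega
  refine ⟨fun i => insert (u i) (W n k i), e, fun i => ⟨?_, fun f hf1 hf2 => ?_⟩, ?_, heG, ?_⟩
  · rw [Finset.card_insert_of_notMem (huW i i), card_W (by omega) i.isLt hn']
    omega
  · exact hG (mem_G₀.2 ⟨hf2, i, u i, huO i, hf1⟩)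
  · intro i j hij
    rw [Finset.disjoint_left]
    intro y hy1 hy2
    rw [Finset.mem_insert] at hy1 hy2
    rcases hy1 with rfl | hy1
    · rcases hy2 with hy2 | hy2
      · exact hij (huinj hy2)
      · exact huW _ _ hy2
    · rcases hy2 with rfl | hy2
      · exact huW _ _ hy1
      · rw [mem_W] at hy1 hy2
        exact hij (Fin.ext (hy1.symm.trans hy2))
  · intro i
    by_cases hi : i ∈ I
    · have h1 : e ∩ insert (u i) (W n k i) = e ∩ W n k i := by
        ext y
        simp only [Finset.mem_inter, Finset.mem_insert]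
        constructor
        · rintro ⟨hy, rfl | hy2⟩
          · exact absurd hy (hu1 i hi).2
          · exact ⟨hy, hy2⟩
        · rintro ⟨hy, hy2⟩
          exact ⟨hy, Or.inr hy2⟩
      show (e ∩ insert (u i) (W n k i)).card = 1
      rw [h1]
      have h2 := h i
      have h3 := Finset.card_pos.2 ((hmI i).1 hi)
      omega
    · have h1 : e ∩ insert (u i) (W n k i) = {u i} := by
        ext y
        simp only [Finset.mem_inter, Finset.mem_insert, Finset.mem_singleton]
        constructor
        · rintro ⟨hy, rfl | hy2⟩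
          · rfl
          · exact absurd ((hmI i).2 ⟨y, Finset.mem_inter.2 ⟨hy, hy2⟩⟩) hi
        · rintro rfl
          exact ⟨(hu2 i hi).1, Or.inl rfl⟩
      show (e ∩ insert (u i) (W n k i)).card = 1
      rw [h1, Finset.card_singleton]

/-- The upper bound for the saturation number. -/
theorem exists_sat {n r k : ℕ} (hr : 3 ≤ r) (hk : r ≤ k) (hn : r * (k + 1) ≤ n) :
    ∃ G : Finset (Finset (Fin n)), IsSaturated r k G ∧
      G.card ≤ r * (k - 1).choose 2 * n.choose (r - 2) := by
  classical
  have hn' : r * (k - 1) ≤ n := le_trans (Nat.mul_le_mul_left _ (by omega)) hn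
  obtain ⟨G, hG, hmax⟩ := Finset.exists_max_image
    (univ.filter fun G : Finset (Finset (Fin n)) => G₀ n r k ⊆ G ∧ (∀ e ∈ G, e.card = r) ∧
      ¬ ContainsH r k G) (fun G => G.card)
    ⟨G₀ n r k, by
      rw [Finset.mem_filter]
      exact ⟨Finset.mem_univ _, subset_rfl, fun e he => (mem_G₀.1 he).1, G₀_free hr hk hn'⟩⟩
  rw [Finset.mem_filter] at hG
  obtain ⟨-, hG0, hGr, hGf⟩ := hG
  have hsat : IsSaturated r k G := by
    refine ⟨hGr, hGf, fun e he heG => ?_⟩
    by_contra hcon
    have := hmax (insert e G) (by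
      rw [Finset.mem_filter]
      refine ⟨Finset.mem_univ _, hG0.trans (Finset.subset_insert _ _), ?_, hcon⟩
      intro f hf
      rw [Finset.mem_insert] at hf
      rcases hf with rfl | hf
      · exact he
      · exact hGr f hf)
    rw [Finset.card_insert_of_notMem heG] at this
    omega
  refine ⟨G, hsat, ?_⟩
  -- all edges meet some `W_i` in two vertices
  have hedge : ∀ e ∈ G, ∃ i : Fin r, 2 ≤ (e ∩ W n k i).card := by
    intro e he
    by_contra hcon
    push Not at hcon
    exact hGf (creates hr hk hn (hGr e he) (fun i => by have := hcon i; omega) hG0 he)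
  set P : Finset (Finset (Fin n)) :=
    univ.biUnion fun i : Fin r => (W n k i).powersetCard 2 with hP
  have hPc : P.card ≤ r * (k - 1).choose 2 := by
    refine Finset.card_biUnion_le.trans ?_
    have : ∀ i ∈ (univ : Finset (Fin r)),
        ((W n k i).powersetCard 2).card ≤ (k - 1).choose 2 := by
      intro i _
      rw [Finset.card_powersetCard, card_W (by omega) i.isLt hn']
    refine (Finset.sum_le_card_nsmul _ _ _ this).trans ?_
    rw [Finset.card_univ, Fintype.card_fin, smul_eq_mul]
  have hsub : G ⊆ (P ×ˢ (univ : Finset (Fin n)).powersetCard (r - 2)).image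
      (fun z => z.1 ∪ z.2) := by
    intro e he
    obtain ⟨i, hi⟩ := hedge e he
    obtain ⟨p, hp, hpc⟩ := Finset.exists_subset_card_eq hi
    rw [Finset.mem_image]
    refine ⟨(p, e \ p), ?_, ?_⟩
    · rw [Finset.mem_product, hP, Finset.mem_biUnion, Finset.mem_powersetCard]
      refine ⟨⟨i, Finset.mem_univ _, Finset.mem_powersetCard.2
        ⟨hp.trans Finset.inter_subset_right, hpc⟩⟩, Finset.subset_univ _, ?_⟩
      show (e \ p).card = r - 2
      rw [Finset.card_sdiff_of_subset (hp.trans Finset.inter_subset_left), hpc, hGr e he]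
    · show p ∪ (e \ p) = e
      exact Finset.union_sdiff_of_subset (hp.trans Finset.inter_subset_left)
  refine (Finset.card_le_card hsub).trans (Finset.card_image_le.trans ?_)
  rw [Finset.card_product, Finset.card_powersetCard, Finset.card_univ, Fintype.card_fin]
  exact Nat.mul_le_mul_right _ hPc

theorem sat_le {n r k : ℕ} (hr : 3 ≤ r) (hk : r ≤ k) (hn : r * (k + 1) ≤ n) :
    Sat r k n ≤ r * (k - 1).choose 2 * n.choose (r - 2) := by
  obtain ⟨G, hG, hc⟩ := exists_sat hr hk hn
  exact le_trans (Nat.sInf_le ⟨G, hG, rfl⟩) hc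

/-- For all `r ≥ 3` and `k ≥ r`, `Sat(H_{r,k},n) / n^(r-1)` tends to `0`, and for `n ≥ r(k+1)` there
is an `H_{r,k}`-saturated `r`-graph on `n` vertices with at most `r C(k-1,2) C(n,r-2)` edges. -/
theorem result (r k : ℕ) (hr : 3 ≤ r) (hk : r ≤ k) :
    Filter.Tendsto (fun n : ℕ => (Sat r k n : ℝ) / (n : ℝ) ^ (r - 1)) Filter.atTop (nhds 0) ∧
    ∀ n : ℕ, r * (k + 1) ≤ n → ∃ G : Finset (Finset (Fin n)), IsSaturated r k G ∧
      G.card ≤ r * (k - 1).choose 2 * n.choose (r - 2) := by
  refine ⟨?_, fun n hn => exists_sat hr hk hn⟩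
  have h1 : Filter.Tendsto (fun n : ℕ => ((r * (k - 1).choose 2 : ℕ) : ℝ) / (n : ℝ)) Filter.atTop
      (nhds 0) := tendsto_const_div_atTop_nhds_zero_nat _
  refine tendsto_of_tendsto_of_tendsto_of_le_of_le' tendsto_const_nhds h1 ?_ ?_
  · exact Filter.Eventually.of_forall fun n => by positivity
  · filter_upwards [Filter.eventually_ge_atTop (r * (k + 1))] with n hn
    have hn0 : 0 < n := lt_of_lt_of_le (by positivity) hn
    have hn1 : (0 : ℝ) < n := by exact_mod_cast hn0
    have h2 : (Sat r k n : ℝ) ≤ ((r * (k - 1).choose 2 : ℕ) : ℝ) * (n : ℝ) ^ (r - 2) := by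
      have h3 := sat_le hr hk hn
      have h4 : n.choose (r - 2) ≤ n ^ (r - 2) := Nat.choose_le_pow _ _
      exact_mod_cast h3.trans (Nat.mul_le_mul_left _ h4)
    rw [div_le_div_iff₀ (by positivity) hn1]
    have h5 : (n : ℝ) ^ (r - 1) = (n : ℝ) ^ (r - 2) * n := by
      rw [← pow_succ]
      congr 1
      omega
    rw [h5]
    nlinarith [mul_le_mul_of_nonneg_right h2 hn1.le]

end Pool.Agent.Results.MP_578b47_co.JoinedCliques
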